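import Pool.Agent.E8helper11.FL.Pieces
import Pool.Agent.E8helper11.FL.Final
import Pool.Agent.E8helper50.FL.Ball
import Pool.Agent.E8helper50.FL.Sel
import Pool.Agent.E8helper7.FL.Cover
import Pool.Agent.E8helper7.FL.Chain
import Pool.Agent.E8helper36.FL.Tree
import Pool.Agent.E8helper36.FL.Es
import Pool.Agent.E8helper86.FL.Minl
import Pool.Agent.E8helper25.FL.Grid
import Pool.Agent.E8helper11.FL.LINK26
import Pool.Agent.E8helper11.FL.RUNG26
import Pool.Agent.E8helper89.FL.Ladder

/-!
# Bounded-degree graphs without a fat ladder minor have bounded strong isometric path complexity

Let `P` be an isometric path of `G` and let `Ω` be the set of the vertices at distance at least `K`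
from `P`.

* If the geodesics from `v` to the vertices of `P` come within distance `K` of `P` at only few
  different vertices `q`, then `P` is covered by few `v`-rooted isometric paths: the vertices of
  `P` whose geodesic passes through `q` lie on at most `2 (2 K + 1)` of them.
* Otherwise a connected subset of `Ω` contains many vertices close to `P`.  Take such a subset `S`
  of the least size containing them, and a spanning tree of it.  Long stretches of the tree without
  a branching vertex and without a vertex near `P` have no shortcut, so a pigeonhole argument over
  a long chain of nested subtrees (whose sizes, counted in branching and special vertices, are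
  bounded because of the degrees) gives connected pieces `D 0, D 1, ...` of the tree, consecutive
  ones adjacent, non-consecutive ones far apart, each containing a vertex close to `P`.  Together
  with `P` and short geodesics to `P` (and the Erdős–Szekeres theorem) they form a `K`-fat minor of
  the `2 × t` grid.
-/

set_option autoImplicit false

namespace Pool.Agent.Results.MP_edbb78_co.FatLadderH11

open SimpleGraph FL11

/-- There is a function `f` such that every connected graph of maximum degree at most `d` which
excludes the `2 × t` grid as a `K`-fat minor has strong isometric path complexity (and hence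
isometric path complexity) at most `f d t K`. -/
theorem result :
    ∃ f : ℕ → ℕ → ℕ → ℕ, ∀ d t K : ℕ, 1 ≤ K →
      ∀ (V : Type) [Fintype V] (G : SimpleGraph V) [DecidableRel G.Adj],
        G.Connected → G.maxDegree ≤ d →
        ¬ HasFatMinor K (pathGraph 2 □ pathGraph t) G →
        sipco G ≤ f d t K ∧ ipco G ≤ f d t K ∧ ∀ v, RootCover G v (f d t K) :=
  final FL7.cover
    (pieces Pool.Agent.E8helper50.FL.ball Pool.Agent.E8helper36.FL.tree
      Pool.Agent.E8helper86.FL.minl FL7.chain Pool.Agent.E8helper50.FL.sel)
    (Pool.Agent.E8helper89.FL.ladder Pool.Agent.E8helper36.FL.es Pool.Agent.E8helper25.FL.grid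
      FL26.link FL26.rung)

end Pool.Agent.Results.MP_edbb78_co.FatLadderH11
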